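import Mathlib
import Pool.Agent.V11299.SP.Mix

/-! # MP_246241_nt: the positive values of `μ_p` in dimension `n`

Let `n ≥ 1`, let `p` be a prime and `μ_p(α) = inf k |k|_p ⟨kα⟩^n` for `α` in `ℝ^n`, where `⟨·⟩` is
the distance to `ℤ^n` in the maximum norm. The class of `α` consists of the points `r α + s`,
`r ≠ 0` rational and `s` in `ℚ^n`.

1. Let `ℓ ≠ p` be a prime. Then `μ_p(ℓα) = μ_p(α) / ℓ` or `μ_p((α - a)/ℓ) = μ_p(α) / ℓ^n` for some
   `a` in `{0, ..., ℓ - 1}^n`.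
2. If `μ_p(α) > 0`, then some `y` in the class of `α` has
   `μ_p(α) / 2^n ≤ μ_p(y) < (3/4) μ_p(α)`. If `t > 0` and `μ_p` has no value in `[t, 2^n t)` on the
   class of `α`, then `μ_p(α) < t`.
3. For every single `α` the following are equivalent: `liminf (k |k|_p)^(1/n) ⟨kα⟩ = 0`;
   `μ_p(α) = 0`; the set of the positive values of `μ_p` on the class of `α` is finite; for every
   `δ > 0` this set does not meet some interval `[t, 2^n t)`, `0 < t < δ`.
4. For all `n ≥ 1` and primes `p` the following are equivalent: the liminf in 3 is zero for all `α`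
   in `ℝ^n`; the set of all positive values of `μ_p` is finite; for every `δ > 0` it does not meet
   some interval `[t, 2^n t)`, `0 < t < δ`; `μ_p` vanishes on some nonempty open set. -/

set_option autoImplicit false

open Filter Topology

namespace Pool.Agent.Results.MP_246241_nt.InfimumSpectrum

open V11299.SP

/-- the distance of `k α` to `ℤ^n` in the maximum norm -/
noncomputable def mx {n : ℕ} (α : Fin n → ℝ) (k : ℕ) : ℝ :=
  ‖fun i : Fin n => |(k : ℝ) * α i - (round ((k : ℝ) * α i) : ℝ)|‖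

/-- `k |k|_p ⟨kα⟩^n` -/
noncomputable def val {n : ℕ} (p : ℕ) (α : Fin n → ℝ) (k : ℕ) : ℝ :=
  (k : ℝ) * ((padicNorm p (k : ℚ) : ℚ) : ℝ) * mx α k ^ n

/-- the infimum of `k |k|_p ⟨kα⟩^n` over the positive integers `k` -/
noncomputable def mu {n : ℕ} (p : ℕ) (α : Fin n → ℝ) : ℝ :=
  sInf {t : ℝ | ∃ k : ℕ, 0 < k ∧ val p α k = t}

/-- the points which arise from `α` by the maps `r x + s` -/
def Class {n : ℕ} (α : Fin n → ℝ) : Set (Fin n → ℝ) :=
  {x | ∃ r : ℚ, ∃ s : Fin n → ℚ, r ≠ 0 ∧ x = fun i => r * α i + s i}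

/-- the positive values of `μ_p` on `X` -/
def Values {n : ℕ} (p : ℕ) (X : Set (Fin n → ℝ)) : Set ℝ := {c | 0 < c ∧ ∃ x ∈ X, mu p x = c}

/-- for every `δ > 0` some interval `[t, 2^n t)`, `0 < t < δ`, does not meet `S` -/
def Gaps (n : ℕ) (S : Set ℝ) : Prop :=
  ∀ δ : ℝ, 0 < δ → ∃ t : ℝ, 0 < t ∧ t < δ ∧ ∀ s ∈ S, ¬ (t ≤ s ∧ s < 2 ^ n * t)

/-- `liminf (k |k|_p)^(1/n) ⟨kα⟩ = 0` -/
def LiminfZero {n : ℕ} (p : ℕ) (α : Fin n → ℝ) : Prop :=
  ∀ ε : ℝ, 0 < ε → ∀ N : ℕ, ∃ k : ℕ, N ≤ k ∧ 0 < k ∧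
    ((k : ℝ) * ((padicNorm p (k : ℚ) : ℚ) : ℝ)) ^ ((1 : ℝ) / (n : ℝ)) * mx α k < ε

/-- the weight -/
noncomputable def w (p : ℕ) (k : ℕ) : ℝ := ((padicNorm p (k : ℚ) : ℚ) : ℝ)

lemma val_eq {n : ℕ} (p : ℕ) (α : Fin n → ℝ) (k : ℕ) : val p α k = k * w p k * mx α k ^ n := rfl

lemma w_nonneg (p : ℕ) (q : ℕ) : 0 ≤ w p q := by
  unfold w
  exact_mod_cast padicNorm.nonneg _

lemma w_pos {p : ℕ} (hp : p.Prime) {q : ℕ} (hq : 0 < q) : 0 < w p q := by
  have := Fact.mk hp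
  refine lt_of_le_of_ne (w_nonneg p q) fun h => ?_
  unfold w at h
  have h0 : padicNorm p (q : ℚ) = 0 := by exact_mod_cast h.symm
  have := padicNorm.zero_of_padicNorm_eq_zero h0
  have : q = 0 := by exact_mod_cast this
  omega

lemma w_mul_ne {p : ℕ} (hp : p.Prime) {l : ℕ} (hl : l.Prime) (h : l ≠ p) (q : ℕ) :
    w p (l * q) = w p q := by
  have := Fact.mk hp
  have := Fact.mk hl
  unfold w
  push_cast
  rw [padicNorm.mul, padicNorm.padicNorm_of_prime_of_ne h.symm, one_mul]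

lemma w_mul_self {p : ℕ} (hp : p.Prime) (q : ℕ) : w p (p * q) = w p q / p := by
  have := Fact.mk hp
  unfold w
  push_cast
  rw [padicNorm.mul, padicNorm.padicNorm_p_of_prime]
  push_cast
  ring

lemma w_mono {p : ℕ} (hp : p.Prime) (D q : ℕ) : w p (D * q) ≤ w p q := by
  have := Fact.mk hp
  unfold w
  push_cast
  rw [padicNorm.mul]
  push_cast
  have h1 : ((padicNorm p (D : ℚ) : ℚ) : ℝ) ≤ 1 := by exact_mod_cast padicNorm.of_nat D
  have h2 : (0 : ℝ) ≤ ((padicNorm p (q : ℚ) : ℚ) : ℝ) := by exact_mod_cast padicNorm.nonneg _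
  nlinarith

section mxlemmas

variable {n : ℕ}

lemma mx_nonneg (α : Fin n → ℝ) (k : ℕ) : 0 ≤ mx α k := norm_nonneg _

lemma nd_le_mx (α : Fin n → ℝ) (k : ℕ) (i : Fin n) : nd (k * α i) ≤ mx α k := by
  have h := norm_le_pi_norm (fun i : Fin n => |(k : ℝ) * α i - (round ((k : ℝ) * α i) : ℝ)|) i
  rw [Real.norm_eq_abs, abs_abs] at h
  exact h

lemma mx_le {α : Fin n → ℝ} {k : ℕ} {c : ℝ} (hc : 0 ≤ c) (h : ∀ i, nd (k * α i) ≤ c) :
    mx α k ≤ c := by
  refine (pi_norm_le_iff_of_nonneg hc).2 fun i => ?_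
  rw [Real.norm_eq_abs, abs_abs]
  exact h i

lemma mx_mul (α : Fin n → ℝ) (l k : ℕ) : mx (fun i => (l : ℝ) * α i) k = mx α (l * k) := by
  unfold mx
  congr 1
  funext i
  push_cast
  rw [show (k : ℝ) * (l * α i) = l * k * α i by ring]

lemma mx_div_ge {l : ℕ} (hl : 0 < l) (α : Fin n → ℝ) (a : Fin n → ℤ) (k : ℕ) :
    mx α k / l ≤ mx (fun i => (α i - a i) / l) k := by
  have hl' : (0 : ℝ) < l := by exact_mod_cast hl
  rw [div_le_iff₀ hl']
  refine mx_le (mul_nonneg (mx_nonneg _ _) hl'.le) fun i => ?_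
  have h1 := nd_div_ge hl (α i) (a i) k
  rw [div_le_iff₀ hl'] at h1
  exact h1.trans (mul_le_mul_of_nonneg_right (nd_le_mx (fun i => (α i - a i) / l) k i) hl'.le)

lemma mx_div_le {l : ℕ} (hl : 0 < l) (α : Fin n → ℝ) (a : Fin n → ℤ) (k : ℕ)
    (h : ∀ i, (l : ℤ) ∣ round ((k : ℝ) * α i) - a i * k) :
    mx (fun i => (α i - a i) / l) k ≤ mx α k / l := by
  have hl' : (0 : ℝ) < l := by exact_mod_cast hl
  refine mx_le (div_nonneg (mx_nonneg _ _) hl'.le) fun i => ?_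
  exact (nd_div_le hl (α i) (a i) k (h i)).trans
    (div_le_div_of_nonneg_right (nd_le_mx α k i) hl'.le)

end mxlemmas

variable {n : ℕ}

lemma val_nonneg (p : ℕ) (α : Fin n → ℝ) (k : ℕ) : 0 ≤ val p α k :=
  mul_nonneg (mul_nonneg (Nat.cast_nonneg _) (w_nonneg p k)) (pow_nonneg (mx_nonneg _ _) _)

lemma mu_iff (p : ℕ) (α : Fin n → ℝ) (c : ℝ) : mu p α = c ↔ InfIs (val p α) c := by
  have hne : {t : ℝ | ∃ q : ℕ, 0 < q ∧ val p α q = t}.Nonempty := ⟨_, 1, one_pos, rfl⟩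
  have hb : BddBelow {t : ℝ | ∃ q : ℕ, 0 < q ∧ val p α q = t} :=
    ⟨0, by rintro _ ⟨x, hx, rfl⟩; exact val_nonneg p α x⟩
  have h0 : InfIs (val p α) (mu p α) := (infIs_iff _ _).1 (isGLB_csInf hne hb)
  constructor
  · rintro rfl
    exact h0
  · intro h
    exact h0.unique h

lemma mu_spec (p : ℕ) (α : Fin n → ℝ) : InfIs (val p α) (mu p α) := (mu_iff p α _).1 rfl

lemma mu_nonneg (p : ℕ) (α : Fin n → ℝ) : 0 ≤ mu p α := by
  obtain ⟨μ, hμ, h⟩ := exists_infIs (val_nonneg p α)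
  rwa [(mu_iff p α μ).2 h]

/-- lower bound after division -/
lemma low_div {p l : ℕ} (hl : 0 < l) (α : Fin n → ℝ) (a : Fin n → ℤ) {μ : ℝ}
    (h : ∀ k : ℕ, 0 < k → μ ≤ val p α k) (k : ℕ) (hk : 0 < k) :
    μ / (l : ℝ) ^ n ≤ val p (fun i => (α i - a i) / l) k := by
  have hl' : (0 : ℝ) < l := by exact_mod_cast hl
  have h1 := mx_div_ge hl α a k
  have h2 := h k hk
  rw [val_eq] at h2 ⊢
  have h3 : (mx α k / l) ^ n ≤ mx (fun i => (α i - a i) / l) k ^ n :=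
    pow_le_pow_left₀ (div_nonneg (mx_nonneg _ _) hl'.le) h1 n
  calc μ / (l : ℝ) ^ n ≤ k * w p k * mx α k ^ n / (l : ℝ) ^ n :=
        div_le_div_of_nonneg_right h2 (by positivity)
    _ = k * w p k * (mx α k / l) ^ n := by rw [div_pow]; ring
    _ ≤ _ := mul_le_mul_of_nonneg_left h3 (mul_nonneg (Nat.cast_nonneg _) (w_nonneg _ _))

/-- upper bound after division -/
lemma up_div {p l : ℕ} (hl : 0 < l) (α : Fin n → ℝ) (a : Fin n → ℤ) (k : ℕ)
    (h : ∀ i, (l : ℤ) ∣ round ((k : ℝ) * α i) - a i * k) :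
    val p (fun i => (α i - a i) / l) k ≤ val p α k / (l : ℝ) ^ n := by
  have hl' : (0 : ℝ) < l := by exact_mod_cast hl
  have h1 := mx_div_le hl α a k h
  rw [val_eq, val_eq]
  have h3 : mx (fun i => (α i - a i) / l) k ^ n ≤ (mx α k / l) ^ n :=
    pow_le_pow_left₀ (mx_nonneg _ _) h1 n
  calc _ ≤ k * w p k * (mx α k / l) ^ n :=
        mul_le_mul_of_nonneg_left h3 (mul_nonneg (Nat.cast_nonneg _) (w_nonneg _ _))
    _ = _ := by rw [div_pow]; ring

lemma val_mul {p l : ℕ} (hp : p.Prime) (hl : l.Prime) (hlp : l ≠ p) (α : Fin n → ℝ) (k : ℕ) :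
    val p (fun i => (l : ℝ) * α i) k = val p α (l * k) / l := by
  have hl' : (0 : ℝ) < l := by exact_mod_cast hl.pos
  rw [val_eq, val_eq, mx_mul, w_mul_ne hp hl hlp]
  push_cast
  field_simp

lemma step {p l : ℕ} (hp : p.Prime) (hl : l.Prime) (hlp : l ≠ p) (α : Fin n → ℝ) :
    mu p (fun i => (l : ℝ) * α i) = mu p α / l ∨
      ∃ a : Fin n → ℤ, (∀ i, 0 ≤ a i ∧ a i < l) ∧
        mu p (fun i => (α i - a i) / l) = mu p α / (l : ℝ) ^ n := by
  have hl0 := hl.pos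
  have hl' : (0 : ℝ) < l := by exact_mod_cast hl0
  have hinf := mu_spec p α
  set μ := mu p α
  have : Nonempty (Fin l) := ⟨⟨0, hl0⟩⟩
  obtain ⟨i, hi⟩ := pigeon_inf (f := val p α) (μ := μ) (ι := Option (Fin n → Fin l))
    (fun i q => i.elim (l ∣ q) fun a => ∀ j : Fin n,
      (l : ℤ) ∣ round ((q : ℝ) * α j) - ((a j : ℕ) : ℤ) * q)
    (fun q => by
      by_cases hq : l ∣ q
      · exact ⟨none, hq⟩
      · choose a ha using fun j : Fin n => exists_residue hl q hq (round ((q : ℝ) * α j))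
        exact ⟨some a, ha⟩) hinf.2
  rcases i with _ | a
  · left
    have hi' : ∀ ε : ℝ, 0 < ε → ∃ q : ℕ, 0 < q ∧ val p α q < μ + ε ∧ l ∣ q := hi
    rw [mu_iff]
    constructor
    · intro q hq
      rw [val_mul hp hl hlp]
      exact div_le_div_of_nonneg_right (hinf.1 _ (by positivity)) hl'.le
    · intro ε hε
      obtain ⟨q, hq, hlt, k, rfl⟩ := hi' (l * ε) (by positivity)
      have hk : 0 < k := Nat.pos_of_ne_zero (by rintro rfl; simp at hq)
      refine ⟨k, hk, ?_⟩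
      rw [val_mul hp hl hlp, div_lt_iff₀ hl']
      have : (μ / l + ε) * l = μ + l * ε := by field_simp
      rwa [this]
  · right
    have hi' : ∀ ε : ℝ, 0 < ε → ∃ q : ℕ, 0 < q ∧ val p α q < μ + ε ∧
      ∀ j : Fin n, (l : ℤ) ∣ round ((q : ℝ) * α j) - ((a j : ℕ) : ℤ) * q := hi
    refine ⟨fun j => ((a j : ℕ) : ℤ), fun j => ⟨Int.natCast_nonneg _, ?_⟩, ?_⟩
    · change ((a j : ℕ) : ℤ) < (l : ℤ)
      exact_mod_cast (a j).2
    rw [mu_iff]
    refine ⟨low_div hl0 α _ hinf.1, fun ε hε => ?_⟩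
    obtain ⟨q, hq, hlt, hdvd⟩ := hi' ((l : ℝ) ^ n * ε) (by positivity)
    refine ⟨q, hq, (up_div hl0 α _ q hdvd).trans_lt ?_⟩
    rw [div_lt_iff₀ (by positivity)]
    have : (μ / (l : ℝ) ^ n + ε) * (l : ℝ) ^ n = μ + (l : ℝ) ^ n * ε := by field_simp
    rwa [this]

lemma Class_trans {α x y : Fin n → ℝ} (hx : x ∈ Class α) (hy : y ∈ Class x) : y ∈ Class α := by
  obtain ⟨r, s, hr, rfl⟩ := hx
  obtain ⟨r', s', hr', rfl⟩ := hy
  refine ⟨r' * r, fun i => r' * s i + s' i, mul_ne_zero hr' hr, ?_⟩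
  funext i
  push_cast
  ring

lemma self_mem_Class (α : Fin n → ℝ) : α ∈ Class α := ⟨1, 0, one_ne_zero, by funext i; simp⟩

lemma mul_mem_Class (α : Fin n → ℝ) {l : ℕ} (hl : 0 < l) : (fun i => (l : ℝ) * α i) ∈ Class α :=
  ⟨l, 0, by exact_mod_cast hl.ne', by funext i; simp⟩

lemma div_mem_Class (α : Fin n → ℝ) {l : ℕ} (hl : 0 < l) (a : Fin n → ℤ) :
    (fun i => (α i - a i) / l) ∈ Class α := by
  have hl' : (l : ℚ) ≠ 0 := by exact_mod_cast hl.ne'
  have hl'' : (l : ℝ) ≠ 0 := by exact_mod_cast hl.ne'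
  refine ⟨1 / l, fun i => -(a i : ℚ) / l, one_div_ne_zero hl', ?_⟩
  funext i
  push_cast
  field_simp
  ring

lemma w_pow {p : ℕ} (hp : p.Prime) (j q : ℕ) : w p (p ^ j * q) = w p q / (p : ℝ) ^ j := by
  induction j with
  | zero => simp
  | succ j ih =>
    have e : p ^ (j + 1) * q = p * (p ^ j * q) := by ring
    rw [e, w_mul_self hp, ih, pow_succ, div_div]

lemma step_p {p : ℕ} (hp : p.Prime) (α : Fin n → ℝ) {ε : ℝ} (hε : 0 < ε) :
    ∃ x ∈ Class α, mu p α / (p : ℝ) ^ n ≤ mu p x ∧ mu p x < mu p α / (p : ℝ) ^ n + ε := by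
  have hp0 := hp.pos
  have hp' : (0 : ℝ) < p := by exact_mod_cast hp0
  have hinf := mu_spec p α
  set μ := mu p α
  obtain ⟨q₀, hq₀, hlt⟩ := hinf.2 ((p : ℝ) ^ n * ε) (by positivity)
  obtain ⟨j, q₁, hq₁, rfl⟩ := Nat.exists_eq_pow_mul_and_not_dvd hq₀.ne' p hp.ne_one
  have hq₁0 : 0 < q₁ := Nat.pos_of_ne_zero (by rintro rfl; simp at hq₀)
  set β : Fin n → ℝ := fun i => ((p ^ j : ℕ) : ℝ) * α i with hβ
  have key : ∀ q : ℕ, val p β q = val p α (p ^ j * q) := by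
    intro q
    rw [val_eq, val_eq, hβ, mx_mul, w_pow hp]
    push_cast
    field_simp
  choose a ha using fun i : Fin n => exists_residue hp q₁ hq₁ (round ((q₁ : ℝ) * β i))
  refine ⟨fun i => (β i - (((a i : ℕ) : ℤ) : ℝ)) / p, Class_trans (mul_mem_Class α (by positivity))
    (div_mem_Class β hp0 fun i => ((a i : ℕ) : ℤ)), ?_, ?_⟩
  · have hlow := low_div (p := p) hp0 β (fun i => ((a i : ℕ) : ℤ)) (μ := μ) (fun k hk => by
      rw [key]
      exact hinf.1 _ (by positivity))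
    refine le_of_forall_pos_le_add fun δ hδ => ?_
    obtain ⟨q, hq, hqlt⟩ := (mu_spec p fun i => (β i - (((a i : ℕ) : ℤ) : ℝ)) / p).2 δ hδ
    exact (hlow q hq).trans hqlt.le
  · have hup := up_div (p := p) hp0 β (fun i => ((a i : ℕ) : ℤ)) q₁ ha
    refine ((mu_spec p _).1 q₁ hq₁0).trans_lt (hup.trans_lt ?_)
    rw [key, div_lt_iff₀ (by positivity)]
    have : (μ / (p : ℝ) ^ n + ε) * (p : ℝ) ^ n = μ + (p : ℝ) ^ n * ε := by field_simp
    rwa [this]

lemma half_step (hn : 0 < n) {p : ℕ} (hp : p.Prime) {α : Fin n → ℝ} (hα : 0 < mu p α) :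
    ∃ y ∈ Class α, mu p α / 2 ^ n ≤ mu p y ∧ mu p y < 3 / 4 * mu p α := by
  have h2n : (2 : ℝ) ≤ 2 ^ n := by
    calc (2 : ℝ) = 2 ^ 1 := by norm_num
      _ ≤ 2 ^ n := pow_le_pow_right₀ (by norm_num) hn
  have hle : mu p α / 2 ^ n ≤ mu p α / 2 := div_le_div_of_nonneg_left hα.le (by norm_num) h2n
  by_cases h : (2 : ℕ) = p
  · subst h
    obtain ⟨x, hx, h1, h2⟩ := step_p hp α (show 0 < mu 2 α / 4 by linarith)
    push_cast at h1 h2
    exact ⟨x, hx, h1, by linarith⟩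
  · rcases step hp Nat.prime_two h α with h1 | ⟨a, _, h1⟩
    · refine ⟨_, mul_mem_Class (l := 2) α (by norm_num), ?_, ?_⟩
      · rw [h1]
        push_cast
        exact hle
      · rw [h1]
        push_cast
        linarith
    · refine ⟨_, div_mem_Class (l := 2) α (by norm_num) a, ?_, ?_⟩
      · rw [h1]
        push_cast
        exact le_rfl
      · rw [h1]
        push_cast
        linarith

lemma window (hn : 0 < n) {p : ℕ} (hp : p.Prime) {α : Fin n → ℝ} {t : ℝ} (ht : 0 < t)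
    (h : ∀ x ∈ Class α, ¬ (t ≤ mu p x ∧ mu p x < 2 ^ n * t)) : mu p α < t := by
  by_contra hcon
  push Not at hcon
  set S : Set ℝ := {c | t ≤ c ∧ ∃ y ∈ Class α, mu p y = c} with hS
  have hne : S.Nonempty := ⟨_, hcon, α, self_mem_Class α, rfl⟩
  have hb : BddBelow S := ⟨t, fun c hc => hc.1⟩
  have hge : t ≤ sInf S := le_csInf hne fun c hc => hc.1
  obtain ⟨c, ⟨hc1, y, hy, rfl⟩, hc2⟩ := exists_lt_of_csInf_lt hne
    (show sInf S < 5 / 4 * sInf S by linarith)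
  have hy0 : 0 < mu p y := ht.trans_le hc1
  have hbig : 2 ^ n * t ≤ mu p y := by
    by_contra hlt
    push Not at hlt
    exact h y hy ⟨hc1, hlt⟩
  obtain ⟨z, hz, h1, h2⟩ := half_step hn hp hy0
  have hz1 : t ≤ mu p z := by
    refine le_trans ?_ h1
    rw [le_div_iff₀ (by positivity)]
    linarith
  have := csInf_le hb (show mu p z ∈ S from ⟨hz1, z, Class_trans hy hz, rfl⟩)
  linarith

lemma mx_le_of_class {α : Fin n → ℝ} (r : ℚ) (s : Fin n → ℚ) :
    ∃ D : ℕ, 0 < D ∧ ∃ M : ℝ, 0 ≤ M ∧ ∀ k : ℕ, mx (fun i => r * α i + s i) (D * k) ≤ M * mx α k := by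
  set D : ℕ := r.den * ∏ i, (s i).den with hD
  have hD0 : 0 < D := Nat.mul_pos r.den_pos (Finset.prod_pos fun i _ => (s i).den_pos)
  obtain ⟨M, hM⟩ := exists_mul_int D r (dvd_mul_right _ _)
  have hK : ∀ i, ∃ K : ℤ, ((D : ℝ) * (s i : ℝ)) = K := fun i => exists_mul_int D (s i)
    (dvd_mul_of_dvd_right (Finset.dvd_prod_of_mem (fun i => (s i).den) (Finset.mem_univ i)) _)
  choose K hK using hK
  refine ⟨D, hD0, |(M : ℝ)|, abs_nonneg _, fun k => ?_⟩
  refine mx_le (mul_nonneg (abs_nonneg _) (mx_nonneg _ _)) fun i => ?_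
  have e : ((D * k : ℕ) : ℝ) * (r * α i + s i) = M * (k * α i) + ((K i * k : ℤ) : ℝ) := by
    push_cast
    rw [← hM, ← hK i]
    ring
  rw [e, nd_add_int]
  exact (nd_int_mul M (k * α i)).trans
    (mul_le_mul_of_nonneg_left (nd_le_mx α k i) (abs_nonneg _))

lemma zero_class {p : ℕ} (hp : p.Prime) {α x : Fin n → ℝ} (h : mu p α = 0) (hx : x ∈ Class α) :
    mu p x = 0 := by
  obtain ⟨r, s, hr, rfl⟩ := hx
  obtain ⟨D, hD, M, hM, hle⟩ := mx_le_of_class (α := α) r s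
  have hDr : (0 : ℝ) < D := by exact_mod_cast hD
  refine le_antisymm (le_of_forall_pos_le_add fun ε hε => ?_) (mu_nonneg _ _)
  have hpos : 0 < D * M ^ n + 1 := by positivity
  obtain ⟨k, hk, hlt⟩ := (mu_spec p α).2 (ε / (D * M ^ n + 1)) (by positivity)
  rw [h, zero_add, lt_div_iff₀ hpos] at hlt
  rw [zero_add]
  refine ((mu_spec p _).1 (D * k) (by positivity)).trans ?_
  rw [val_eq]
  have h1 := pow_le_pow_left₀ (mx_nonneg _ _) (hle k) n
  have h2 := w_mono hp D k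
  have h3 := val_nonneg p α k
  calc ((D * k : ℕ) : ℝ) * w p (D * k) * mx (fun i => r * α i + s i) (D * k) ^ n
      ≤ ((D * k : ℕ) : ℝ) * w p k * (M * mx α k) ^ n :=
        mul_le_mul (mul_le_mul_of_nonneg_left h2 (Nat.cast_nonneg _)) h1
          (pow_nonneg (mx_nonneg _ _) _) (mul_nonneg (Nat.cast_nonneg _) (w_nonneg _ _))
    _ = D * M ^ n * val p α k := by
        rw [val_eq, mul_pow]
        push_cast
        ring
    _ ≤ val p α k * (D * M ^ n + 1) := by nlinarith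
    _ ≤ ε := hlt.le

lemma values_empty {p : ℕ} {X : Set (Fin n → ℝ)} (h : ∀ x ∈ X, mu p x = 0) :
    Values p X = ∅ := by
  rw [Set.eq_empty_iff_forall_notMem]
  rintro c ⟨hc, x, hx, rfl⟩
  exact hc.ne' (h x hx)

lemma gaps_of_finite {S : Set ℝ} (h0 : ∀ s ∈ S, 0 < s) (hfin : S.Finite) : Gaps n S := by
  intro δ hδ
  obtain ⟨m, hm, hmin⟩ : ∃ m : ℝ, 0 < m ∧ ∀ s ∈ S, m ≤ s := by
    rcases S.eq_empty_or_nonempty with he | hne
    · exact ⟨1, one_pos, by simp [he]⟩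
    · obtain ⟨m, hm, hle⟩ := Set.exists_min_image S id hfin hne
      exact ⟨m, h0 m hm, hle⟩
  have h2 : (0 : ℝ) < 2 ^ n := by positivity
  refine ⟨min (δ / 2) (m / 2 ^ n), by positivity, lt_of_le_of_lt (min_le_left _ _) (by linarith),
    ?_⟩
  rintro s hs ⟨_, hlt⟩
  have h3 : 2 ^ n * min (δ / 2) (m / 2 ^ n) ≤ 2 ^ n * (m / 2 ^ n) :=
    mul_le_mul_of_nonneg_left (min_le_right _ _) h2.le
  rw [mul_div_cancel₀ _ h2.ne'] at h3
  linarith [hmin s hs]

lemma zero_of_gaps (hn : 0 < n) {p : ℕ} (hp : p.Prime) {α : Fin n → ℝ} {X : Set (Fin n → ℝ)}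
    (hX : Class α ⊆ X) (h : Gaps n (Values p X)) : mu p α = 0 := by
  by_contra hne
  have hα : 0 < mu p α := lt_of_le_of_ne (mu_nonneg p α) (Ne.symm hne)
  obtain ⟨t, ht0, htc, ht⟩ := h _ hα
  have := window hn hp ht0 (fun x hx ⟨h1, h2⟩ => ht _ ⟨ht0.trans_le h1, x, hX hx, rfl⟩ ⟨h1, h2⟩)
  linarith

lemma rpow_mx (hn : 0 < n) (p : ℕ) (α : Fin n → ℝ) (k : ℕ) :
    (((k : ℝ) * w p k) ^ ((1 : ℝ) / (n : ℝ)) * mx α k) ^ n = val p α k := by
  have h0 : 0 ≤ (k : ℝ) * w p k := mul_nonneg (Nat.cast_nonneg _) (w_nonneg _ _)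
  have hn' : (n : ℝ) ≠ 0 := by exact_mod_cast hn.ne'
  rw [mul_pow, ← Real.rpow_natCast (((k : ℝ) * w p k) ^ ((1 : ℝ) / (n : ℝ))), ← Real.rpow_mul h0,
    one_div, inv_mul_cancel₀ hn', Real.rpow_one, val_eq]

lemma exists_low {p : ℕ} (α : Fin n → ℝ) (N : ℕ) :
    ∃ δ : ℝ, 0 < δ ∧ ∀ k < N, val p α k = 0 ∨ δ ≤ val p α k := by
  induction N with
  | zero => exact ⟨1, one_pos, fun k hk => absurd hk (Nat.not_lt_zero k)⟩
  | succ N ih =>
    obtain ⟨δ, hδ, h⟩ := ih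
    rcases (val_nonneg p α N).eq_or_lt with h0 | h0
    · refine ⟨δ, hδ, fun k hk => ?_⟩
      rcases Nat.lt_succ_iff_lt_or_eq.1 hk with hk | rfl
      · exact h k hk
      · exact Or.inl h0.symm
    · refine ⟨min δ (val p α N), lt_min hδ h0, fun k hk => ?_⟩
      rcases Nat.lt_succ_iff_lt_or_eq.1 hk with hk | rfl
      · exact (h k hk).imp id fun h1 => (min_le_left _ _).trans h1
      · exact Or.inr (min_le_right _ _)

lemma liminf_iff (hn : 0 < n) {p : ℕ} (hp : p.Prime) (α : Fin n → ℝ) :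
    LiminfZero p α ↔ mu p α = 0 := by
  have hroot : ∀ k : ℕ, 0 ≤ ((k : ℝ) * w p k) ^ ((1 : ℝ) / (n : ℝ)) * mx α k := fun k =>
    mul_nonneg (Real.rpow_nonneg (mul_nonneg (Nat.cast_nonneg _) (w_nonneg _ _)) _)
      (mx_nonneg _ _)
  constructor
  · intro h
    refine le_antisymm (le_of_forall_pos_le_add fun ε hε => ?_) (mu_nonneg _ _)
    obtain ⟨k, _, hk, hlt⟩ := h (min 1 ε) (lt_min one_pos hε) 0
    have hlt' : ((k : ℝ) * w p k) ^ ((1 : ℝ) / (n : ℝ)) * mx α k < min 1 ε := hlt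
    have h1 := pow_le_pow_left₀ (hroot k) hlt'.le n
    rw [rpow_mx hn] at h1
    have h2 : (min 1 ε) ^ n ≤ min 1 ε :=
      pow_le_of_le_one (lt_min one_pos hε).le (min_le_left _ _) hn.ne'
    have h3 := (mu_spec p α).1 k hk
    linarith [min_le_right (1 : ℝ) ε]
  · intro h ε hε N
    have hconv : ∀ k : ℕ, val p α k < ε ^ n →
        ((k : ℝ) * w p k) ^ ((1 : ℝ) / (n : ℝ)) * mx α k < ε := by
      intro k hk
      rw [← rpow_mx hn] at hk
      exact lt_of_pow_lt_pow_left₀ n hε.le hk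
    obtain ⟨δ, hδ, hlow⟩ := exists_low (p := p) α N
    obtain ⟨k, hk, hlt⟩ := (mu_spec p α).2 (min δ (ε ^ n)) (lt_min hδ (by positivity))
    rw [h, zero_add] at hlt
    by_cases hkN : N ≤ k
    · exact ⟨k, hkN, hk, hconv k (hlt.trans_le (min_le_right _ _))⟩
    · rcases hlow k (not_le.1 hkN) with h0 | h0
      · have hmx : mx α k = 0 := by
          rw [val_eq, mul_eq_zero] at h0
          rcases h0 with h0 | h0
          · exfalso
            have : 0 < (k : ℝ) * w p k := mul_pos (by exact_mod_cast hk) (w_pos hp hk)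
            exact this.ne' h0
          · exact pow_eq_zero_iff hn.ne' |>.1 h0
        refine ⟨(N + 1) * k, by nlinarith, by positivity, ?_⟩
        have hz : mx α ((N + 1) * k) = 0 := by
          refine le_antisymm (mx_le le_rfl fun i => ?_) (mx_nonneg _ _)
          have h1 := nd_int_mul (N + 1 : ℕ) ((k : ℝ) * α i)
          have h2 := nd_le_mx α k i
          rw [hmx] at h2
          have h3 : nd ((k : ℝ) * α i) = 0 := le_antisymm h2 (nd_nonneg _)
          rw [h3, mul_zero] at h1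
          have e : (((N + 1) * k : ℕ) : ℝ) * α i = (((N + 1 : ℕ) : ℤ) : ℝ) * ((k : ℝ) * α i) := by
            push_cast
            ring
          rw [e]
          exact h1
        rw [hz, mul_zero]
        exact hε
      · exact absurd (hlt.trans_le (min_le_left _ _)) (not_lt.2 h0)

lemma dense {p : ℕ} {α : Fin n → ℝ} (hα : 0 < mu p α) {U : Set (Fin n → ℝ)} (hU : IsOpen U)
    (hne : U.Nonempty) : ∃ x ∈ U, 0 < mu p x := by
  obtain ⟨z, hz⟩ := hne
  obtain ⟨ε, hε, hball⟩ := Metric.isOpen_iff.1 hU _ hz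
  obtain ⟨m, hm⟩ := exists_nat_one_div_lt (show 0 < ε / 2 by linarith)
  have hm1 : (0 : ℝ) < ((m + 1 : ℕ) : ℝ) := by positivity
  have hex : ∀ i, ∃ a : ℤ, |(α i - a) / ((m + 1 : ℕ) : ℝ) - z i| ≤ ε / 2 := by
    intro i
    refine ⟨⌊α i - (m + 1 : ℕ) * z i⌋, ?_⟩
    have h1 := Int.floor_le (α i - (m + 1 : ℕ) * z i)
    have h2 := Int.lt_floor_add_one (α i - (m + 1 : ℕ) * z i)
    rw [abs_le, le_sub_iff_add_le, sub_le_iff_le_add, div_le_iff₀ hm1, le_div_iff₀ hm1]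
    have h3 : (1 : ℝ) < ε / 2 * ((m + 1 : ℕ) : ℝ) := by
      rw [one_div, inv_lt_iff_one_lt_mul₀ (by positivity)] at hm
      push_cast
      linarith
    constructor <;> nlinarith
  choose a ha using hex
  refine ⟨fun i => (α i - a i) / ((m + 1 : ℕ) : ℝ), hball ?_, ?_⟩
  · rw [Metric.mem_ball]
    refine lt_of_le_of_lt ((dist_pi_le_iff (by linarith)).2 fun i => ?_)
      (show ε / 2 < ε by linarith)
    rw [Real.dist_eq]
    exact ha i
  · have h1 := low_div (p := p) (Nat.succ_pos m) α a (mu_spec p α).1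
    have hpos : 0 < mu p α / (((m + 1 : ℕ) : ℝ)) ^ n := by positivity
    refine hpos.trans_le (le_of_forall_pos_le_add fun δ hδ => ?_)
    obtain ⟨q, hq, hqlt⟩ := (mu_spec p fun i => (α i - a i) / ((m + 1 : ℕ) : ℝ)).2 δ hδ
    exact (h1 q hq).trans hqlt.le

theorem result (n : ℕ) (hn : 0 < n) (p : ℕ) (hp : p.Prime) :
    (∀ (α : Fin n → ℝ) (l : ℕ), l.Prime → l ≠ p →
      mu p (fun i => (l : ℝ) * α i) = mu p α / l ∨
        ∃ a : Fin n → ℤ, (∀ i, 0 ≤ a i ∧ a i < l) ∧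
          mu p (fun i => (α i - a i) / l) = mu p α / (l : ℝ) ^ n) ∧
    (∀ α : Fin n → ℝ, 0 < mu p α →
      ∃ y ∈ Class α, mu p α / 2 ^ n ≤ mu p y ∧ mu p y < 3 / 4 * mu p α) ∧
    (∀ (α : Fin n → ℝ) (t : ℝ), 0 < t →
      (∀ x ∈ Class α, ¬ (t ≤ mu p x ∧ mu p x < 2 ^ n * t)) → mu p α < t) ∧
    (∀ α : Fin n → ℝ, List.TFAE [
      LiminfZero p α,
      mu p α = 0,
      (Values p (Class α)).Finite,
      Gaps n (Values p (Class α))]) ∧
    List.TFAE [
      ∀ α : Fin n → ℝ, LiminfZero p α,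
      (Values p (Set.univ : Set (Fin n → ℝ))).Finite,
      Gaps n (Values p (Set.univ : Set (Fin n → ℝ))),
      ∃ U : Set (Fin n → ℝ), IsOpen U ∧ U.Nonempty ∧ ∀ α ∈ U, mu p α = 0] := by
  refine ⟨fun α l hl hlp => step hp hl hlp α, fun α hα => half_step hn hp hα,
    fun α t ht h => window hn hp ht h, fun α => ?_, ?_⟩
  · tfae_have 1 ↔ 2 := liminf_iff hn hp α
    tfae_have 2 → 3 := by
      intro h
      rw [values_empty fun x hx => zero_class hp h hx]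
      exact Set.finite_empty
    tfae_have 3 → 4 := gaps_of_finite fun s hs => hs.1
    tfae_have 4 → 2 := zero_of_gaps hn hp subset_rfl
    tfae_finish
  · tfae_have 1 → 2 := by
      intro h
      rw [values_empty fun x _ => (liminf_iff hn hp x).1 (h x)]
      exact Set.finite_empty
    tfae_have 2 → 3 := gaps_of_finite fun s hs => hs.1
    tfae_have 3 → 1 := fun h α =>
      (liminf_iff hn hp α).2 (zero_of_gaps hn hp (Set.subset_univ _) h)
    tfae_have 1 → 4 := fun h => ⟨Set.univ, isOpen_univ, Set.univ_nonempty, fun x _ =>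
      (liminf_iff hn hp x).1 (h x)⟩
    tfae_have 4 → 1 := by
      rintro ⟨U, hU, hne, h⟩ α
      rw [liminf_iff hn hp]
      by_contra hcon
      obtain ⟨x, hx, hpos⟩ := dense (lt_of_le_of_ne (mu_nonneg p α) (Ne.symm hcon)) hU hne
      exact hpos.ne' (h x hx)
    tfae_finish

end Pool.Agent.Results.MP_246241_nt.InfimumSpectrum
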